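import Mathlib

/-!
The space of infinite subsets of the natural numbers and Ramsey null sets.
-/

namespace Pool.Agent.H38.Ces

/-- Infinite subsets of `ℕ`, as characteristic functions, with the topology of `2^ω`. -/
abbrev Inf : Type := {x : ℕ → Bool // {n | x n = true}.Infinite}

/-- The set `[s, A]` of infinite `x` with `s ⊆ x ⊆ s ∪ A` whose elements up to `max s` are
exactly those of `s`. -/
def ell (s : Finset ℕ) (A : Set ℕ) : Set Inf :=
  {x | (∀ n ∈ s, x.1 n = true) ∧ (∀ n, x.1 n = true → n ∈ s ∨ n ∈ A) ∧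
    ∀ n, x.1 n = true → (∃ m ∈ s, n ≤ m) → n ∈ s}

/-- Ramsey null sets. -/
def RamseyNull (N : Set Inf) : Prop :=
  ∀ (s : Finset ℕ) (A : Set ℕ), A.Infinite → (∀ a ∈ s, ∀ b ∈ A, a < b) →
    ∃ B ⊆ A, B.Infinite ∧ Disjoint (ell s B) N

end Pool.Agent.H38.Ces
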