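import Pool.Agent.H38.Ces.Defs

namespace Pool.Agent.H38.Ces

open Filter Topology Finset

/-- number of elements up to `n` -/
def cnt (x : Inf) (n : ℕ) : ℕ := ∑ i ∈ range (n + 1), if x.1 i = true then 1 else 0

/-- its parity -/
def par (n : ℕ) (x : Inf) : ℝ := if cnt x n % 2 = 0 then 0 else 1

theorem par_cont (n : ℕ) : Continuous (par n) := by
  have h : Continuous fun x : Inf => cnt x n :=
    continuous_finsetSum _ fun i _ =>
      (continuous_of_discreteTopology (f := fun b : Bool => if b = true then 1 else 0)).comp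
        ((continuous_apply i).comp continuous_subtype_val)
  exact (continuous_of_discreteTopology
    (f := fun c : ℕ => if c % 2 = 0 then (0 : ℝ) else 1)).comp h

theorem par_mem (n : ℕ) (x : Inf) : par n x ∈ Set.Icc (0 : ℝ) 1 := by
  unfold par; split_ifs <;> simp

theorem diverge (φ ψ : ℕ → ℕ) (hφ : StrictMono φ) (hψ : StrictMono ψ) (B : Set ℕ)
    (hB : B.Infinite) : ∃ x ∈ ell ∅ B, ¬ ∃ l : ℝ,
      Tendsto (fun k => (∑ m ∈ range (ψ k), par (φ m) x) / (ψ k : ℝ)) atTop (𝓝 l) := by
  classical
  choose g hg hg' using fun t => hB.exists_gt t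
  let b : ℕ → ℕ := fun j => Nat.rec (g 0) (fun _ t => g (φ (ψ (4 * t + 1)))) j
  have hb : ∀ j, b (j + 1) = g (φ (ψ (4 * b j + 1))) := fun j => rfl
  have h1 : ∀ j, φ (ψ (4 * b j + 1)) < b (j + 1) := fun j => hg' _
  have h2 : ∀ j, 4 * b j + 1 ≤ ψ (4 * b j + 1) := fun j => hψ.le_apply
  have hm : StrictMono b := strictMono_nat_of_lt_succ fun j => by
    have := h1 j; have := h2 j; have := hφ.le_apply (x := ψ (4 * b j + 1)); omega
  have hbB : ∀ j, b j ∈ B := fun j => by cases j <;> exact hg _
  let x : Inf := ⟨fun i => decide (i ∈ Set.range b), by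
    simp only [decide_eq_true_eq]; exact Set.infinite_range_of_injective hm.injective⟩
  have hc : ∀ j n, b j ≤ n → n < b (j + 1) → cnt x n = j + 1 := by
    intro j n h3 h4
    unfold cnt
    rw [← Finset.card_filter]
    have : (range (n + 1)).filter (fun i => x.1 i = true) = (range (j + 1)).image b := by
      ext i
      simp only [x, mem_filter, mem_range, decide_eq_true_eq, Set.mem_range, mem_image]
      constructor
      · rintro ⟨h5, k, rfl⟩
        exact ⟨k, hm.lt_iff_lt.1 (by omega), rfl⟩
      · rintro ⟨k, h5, rfl⟩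
        have := hm.monotone (show k ≤ j by omega)
        exact ⟨by omega, k, rfl⟩
    rw [this, card_image_of_injective _ hm.injective, card_range]
  refine ⟨x, ⟨by simp, fun n hn => ?_, by simp⟩, ?_⟩
  · simp only [x, decide_eq_true_eq, Set.mem_range] at hn
    obtain ⟨j, rfl⟩ := hn
    exact Or.inr (hbB j)
  rintro ⟨l, hl⟩
  have key : ∀ j, |(∑ m ∈ range (ψ (4 * b j + 1)), par (φ m) x) / (ψ (4 * b j + 1) : ℝ) -
      (if (j + 1) % 2 = 0 then 0 else 1)| ≤ 1 / 4 := by
    intro j
    set N := ψ (4 * b j + 1) with hN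
    set p : ℝ := if (j + 1) % 2 = 0 then 0 else 1 with hp
    have hN' : 4 * b j + 1 ≤ N := h2 j
    have hpos : (0 : ℝ) < N := by exact_mod_cast (by omega : 0 < N)
    have e : (∑ m ∈ range N, par (φ m) x) / (N : ℝ) - p =
        (∑ m ∈ range N, (par (φ m) x - p)) / N := by
      rw [sum_sub_distrib]; simp; field_simp
    rw [e, abs_div, abs_of_pos hpos, div_le_iff₀ hpos]
    have h5 : ∑ m ∈ range N, (par (φ m) x - p) = ∑ m ∈ range (b j), (par (φ m) x - p) := by
      symm
      refine sum_subset (fun m hm => by simp at hm ⊢; omega) fun m h6 h7 => ?_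
      simp only [mem_range, not_lt] at h6 h7
      have := hφ.le_apply (x := m)
      have := hφ h6
      have : φ N < b (j + 1) := h1 j
      rw [par, hc j (φ m) (by omega) (by omega), hp, sub_self]
    rw [h5]
    have h6 : |∑ m ∈ range (b j), (par (φ m) x - p)| ≤ ∑ m ∈ range (b j), (1 : ℝ) :=
      (abs_sum_le_sum_abs _ _).trans (sum_le_sum fun m _ => by
        rw [par, hp]; split_ifs <;> norm_num)
    have h7 : (4 * (Nat.cast (b j) : ℝ) + 1) ≤ N := by exact_mod_cast hN'
    rw [sum_const, card_range, nsmul_eq_mul, mul_one] at h6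
    linarith
  have ht : Tendsto (fun j => 4 * b j + 1) atTop atTop :=
    tendsto_atTop_mono (fun j => by have := hm.le_apply (x := j); simp only [id]; omega) tendsto_id
  have h3 := hl.comp ht
  have h4 : l ≤ 1 / 4 := by
    refine le_of_tendsto' (h3.comp (tendsto_atTop_mono (f := id) (g := fun j => 2 * j + 1)
      (fun j => by simp only [id]; omega) tendsto_id)) fun j => ?_
    have := key (2 * j + 1)
    rw [if_pos (by omega)] at this
    simpa using (abs_le.1 this).2
  have h5 : 3 / 4 ≤ l := by
    refine ge_of_tendsto' (h3.comp (tendsto_atTop_mono (f := id) (g := fun j => 2 * j)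
      (fun j => by simp only [id]; omega) tendsto_id)) fun j => ?_
    have := key (2 * j)
    rw [if_neg (by omega)] at this
    have := (abs_le.1 this).1
    simp only [Function.comp]
    linarith
  linarith

end Pool.Agent.H38.Ces
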